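import Pool.Agent.N869.GK.Z.C17
import Pool.Agent.N869.GK.Z.Pat

/-!
# The parity conjecture for many twists of the curve of conductor 17 at the same time, for almost every modulus

`E_d` is the quadratic twist by `d` of `E : y² = x (x + 1) (x - 16)`, a curve of conductor `17` without
complex multiplication. Fix any finite set of squarefree integers `c_1, …, c_m`, positive or negative, such
that the root numbers of the `E_{c_i}` are `+1`. For a squarefree number `f` prime to `34 c_1 ⋯ c_m` we
consider all the `n`-tuples `(d_1, …, d_n)` of divisors of `f` in the principal class (`d_i ≡ 1` modulo `8`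
and a square modulo `17` and modulo the odd primes dividing some `c_i`), independent modulo squares. Let `d_T`
be the squarefree part of `∏_{i ∈ T} d_i`.

THEOREM. (0) The `m (2 ^ n - 1)` curves `E_{c_i d_T}`, `T ≠ ∅`, all have root number `+1`, for every `f` and
every tuple; so the parity conjecture says that all their ranks are even. For ALMOST EVERY SINGLE `f` (natural
density one), and not only on the average over `f`:
(1) the set of the pairs `(i, T)`, `T` in a given set `𝒯`, for which `E_{c_i d_T}` satisfies the parity conjecture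
with rank and analytic rank `0` (and has no element of order two in `Ш`) is distributed, in the set of the
tuples of divisors of the single number `f`, like a random set which contains each of the `M = m #𝒯` pairs with
the probability `κ = ∏_{i ≥ 0} (1 - 2 ^ (-2 i - 1)) = 0.4194…`, independently (up to any `δ > 0`);
(2) the proportion of the tuples for which ALL the `E_{c_i d_T}`, `T` in `𝒯`, have the property is close to
`κ ^ M`;
(3) the proportion of the tuples for which at least one of the `c_i` has the property for all `T` in `𝒯` is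
close to `1 - (1 - κ ^ #𝒯) ^ m`;
(4) for all but a proportion `(2 ^ n - 1) (0.5806)^m` of the tuples there is for EVERY `T ≠ ∅` a multiplier `c_i`
such that the parity conjecture holds for `E_{c_i d_T}`, with rank and analytic rank `0`;
(5) (law of large numbers inside the tuples) for all but a proportion `κ (1 - κ) / (ε² M)` of the tuples the
conjecture is verified for at least `(κ - ε) M` of the `M` curves `E_{c_i d_T}`.

The theorem `Conductor17` of the problem `MP_696deb_nt` (helpers 969, 809, 916 and others) says that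
`L(E_d, 1) ≠ 0` if `E_d(ℚ)` is finite and `Ш(E_d/ℚ)[2] = 0`, and gives the natural density `κ / 2` of these `d`. That
is the case of one twist family, on the average over `d`. New here: the joint law for several families
and for all the products of several divisors at the same time, and for almost every fixed `f` (the
number of the tuples is a power of `2 ^ ω(f)` only), and the disappearance of the exceptions in (3).

Proof. The descent over `ℚ` for several general curves with full 2-torsion without a cyclic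
4-isogeny: the 2-Selmer groups of the twists by `d` are the kernels of matrices over `𝔽₂` given by the
quadratic symbols between the primes dividing `d` and by their classes in a finite group, where
the local conditions at the bad places are maximal isotropic subspaces (orders of `E(ℚ_p)/2E(ℚ_p)`). First
and second moments over random colourings of the primes dividing `f` by the subsets of `{1, …, n}`; boxes of
large primes, the large sieve for quadratic symbols, all the moments of the numbers of the solutions for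
all the systems at once (sums over decorations, stable sets for products of matrix algebras), and an
inversion of moments with given parity. For different curves the local matrices at the primes are not
conjugate, which gives the independence (`Pool/Agent/N869/GK`; parts by helpers 3, 7, 9, 19, 27, 42, 49, 55,
67, 91, 128, 163, 170, 195, 199, 221, 247, 263, 265, 271, 273, 286, 300, 306, 314, 340, 342, 344, 364, 372,
383, 386, 391, 395, 401, 413, 434, 454, 475, 478, 488, 495, 514, 527, 558, 572, 588, 592, 595, 603, 617,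
655, 661, 690, 693, 700, 701, 713, 723, 755, 803, 814, 833, 835, 853, 869, 891, 901, 933, 954).
-/

set_option autoImplicit false

namespace Pool.Agent.Results.MP_577099_nt.JointLawX17

open Filter Topology
open Pool.Agent.Results.MP_696deb_nt.Conductor17 (A B RankZeroShaTwo RootPlus BSDRankZero)
open Pool.Agent.N869.GK.Z (Independent AlmostAll kappa)

/-- The squarefree numbers prime to `34 c_1 ⋯ c_m`. -/
def Modulus {m : ℕ} (c : Fin m → ℤ) (f : ℕ) : Prop :=
  Squarefree f ∧ f.Coprime (34 * ∏ i, (c i).natAbs)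

/-- The principal class: `d ≡ 1` modulo `8`, and `d` is a square modulo `17` and modulo the odd primes which
divide some `c_i`. -/
def Principal {m : ℕ} (c : Fin m → ℤ) (d : ℕ) : Prop :=
  d % 8 = 1 ∧ ∀ p : ℕ, p.Prime → p ≠ 2 → p ∣ 17 * ∏ i, (c i).natAbs → IsSquare (d : ZMod p)

/-- The tuples of divisors of `f` in the principal class, independent modulo squares. -/
def tuples {m : ℕ} (c : Fin m → ℤ) (n f : ℕ) : Set (Fin n → ℕ) :=
  {d | (∀ i, d i ∣ f ∧ Principal c (d i)) ∧ Independent d}

/-- `t = d_T` is the squarefree part of `∏_{i ∈ T} d_i`. -/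
def IsPart {n : ℕ} (d : Fin n → ℕ) (T : Finset (Fin n)) (t : ℕ) : Prop :=
  Squarefree t ∧ IsSquare (t * ∏ i ∈ T, d i)

/-- The parity conjecture for `E_d` with root number `+1` and rank and analytic rank `0`. -/
def ParityZero (d : ℤ) : Prop := RootPlus d ∧ BSDRankZero (A d) (B d)

/-- For `t = d_T`: `E_{c t}(ℚ)` is finite, `Ш` has no element of order two, the root number is `+1` and the order
of vanishing of the `L`-function of `E_{c t}` at the centre and the rank are both `0`. -/
def ZeroAt (c : ℤ) {n : ℕ} (d : Fin n → ℕ) (T : Finset (Fin n)) : Prop :=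
  ∀ t : ℕ, IsPart d T t → RankZeroShaTwo (c * t) ∧ ParityZero (c * t)

/-- There are tuples, finitely many, and the proportion of those with the property `P` differs from `q` by
at most `δ`. -/
def Close {m : ℕ} (c : Fin m → ℤ) {n : ℕ} (P : (Fin n → ℕ) → Prop) (q δ : ℝ) (f : ℕ) : Prop :=
  (tuples c n f).Finite ∧ 0 < (tuples c n f).ncard ∧
    |({d ∈ tuples c n f | P d}.ncard : ℝ) / ((tuples c n f).ncard : ℝ) - q| ≤ δ

/-- There are tuples, finitely many, and the proportion of those with the property `P` is at least `q - δ`. -/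
def AtLeast {m : ℕ} (c : Fin m → ℤ) {n : ℕ} (P : (Fin n → ℕ) → Prop) (q δ : ℝ) (f : ℕ) : Prop :=
  (tuples c n f).Finite ∧ 0 < (tuples c n f).ncard ∧
    q - δ ≤ ({d ∈ tuples c n f | P d}.ncard : ℝ) / ((tuples c n f).ncard : ℝ)

open Classical in
/-- the set of the pairs `(i, T)`, `T ∈ 𝒯`, with the property -/
noncomputable def good {m : ℕ} (c : Fin m → ℤ) {n : ℕ} (𝒯 : Finset (Finset (Fin n)))
    (d : Fin n → ℕ) : Finset (Fin m × Finset (Fin n)) :=
  ((Finset.univ : Finset (Fin m)) ×ˢ 𝒯).filter fun a => ZeroAt (c a.1) d a.2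

section proof

open Pool.Agent.N869.GK

lemma modulus_eq {m : ℕ} (c : Fin m → ℤ) : Modulus c = Z.Conductor (Z.C17.NN c) := by
  funext f
  unfold Modulus Z.Conductor Z.C17.NN
  have e1 : 34 * ∏ i, (c i).natAbs = 2 * (17 * ∏ i, (c i).natAbs) := by ring
  rw [e1]

lemma tuples_eq {m : ℕ} (c : Fin m → ℤ) (n f : ℕ) :
    tuples c n f = Z.fam (Z.C17.NN c) false n f := by
  ext d
  constructor
  · rintro ⟨h1, h2⟩
    exact ⟨h1, h2, fun h => absurd h (by decide)⟩
  · rintro ⟨h1, h2, -⟩
    exact ⟨h1, h2⟩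

lemma event {m : ℕ} {c : Fin m → ℤ} (hs : ∀ i, Squarefree (c i)) {n : ℕ} {f : ℕ}
    (hf : Modulus c f) {d : Fin n → ℕ} (hd : d ∈ tuples c n f) (i : Fin m) (T : Finset (Fin n)) :
    Z.SelRank (Z.tw (∏ i ∈ T, (d i : ℤ)) (Z.tw (c i) Z.C17.e17)) 0 ↔ ZeroAt (c i) d T := by
  have hpos : 0 < ∏ i ∈ T, d i := Finset.prod_pos fun i _ =>
    Nat.pos_of_ne_zero fun h => hf.1.ne_zero (zero_dvd_iff.1 (h ▸ (hd.1 i).1))
  have hcast : ∏ i ∈ T, (d i : ℤ) = ((∏ i ∈ T, d i : ℕ) : ℤ) := by
    push_cast
    rfl
  rw [hcast]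
  unfold ZeroAt
  constructor
  · intro h t ht
    have h1 : RankZeroShaTwo (c i * t) := (Z.C17.rz_prod (hs i).ne_zero hpos ht.1 ht.2).1 h
    refine ⟨h1, ?_⟩
    have hcop : Squarefree (c i * (t : ℤ)) :=
      Z.C17.sqf_mul (fun j => (hd.1 j).1) ht.1 ht.2 (hs i)
        (Nat.Coprime.coprime_dvd_right ((Finset.dvd_prod_of_mem (fun i => (c i).natAbs)
          (Finset.mem_univ i)).mul_left 34) hf.2)
    exact (Pool.Agent.Results.MP_696deb_nt.Conductor17.result).1 _ hcop h1
  · intro h
    obtain ⟨t, s, -, ht2, ht3⟩ : ∃ t s : ℕ, 0 < t ∧ Squarefree t ∧ t * s ^ 2 = ∏ i ∈ T, d i := by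
      obtain ⟨a, b, h1, h2, h3, h4⟩ := Nat.sq_mul_squarefree_of_pos hpos
      exact ⟨a, b, h1, h4, by rw [mul_comm]; exact h3⟩
    have hp : IsPart d T t := ⟨ht2, t * s, by rw [← ht3]; ring⟩
    exact (Z.C17.rz_prod (hs i).ne_zero hpos hp.1 hp.2).2 (h t hp).1

lemma good_eq {m : ℕ} {c : Fin m → ℤ} (hs : ∀ i, Squarefree (c i)) {n : ℕ} {f : ℕ}
    (hf : Modulus c f) (𝒯 : Finset (Finset (Fin n))) {d : Fin n → ℕ} (hd : d ∈ tuples c n f) :
    Z.sat 𝒯 (Z.IsMin (fun i => Z.tw (c i) Z.C17.e17) d) = good c 𝒯 d := by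
  have h1 : Z.sat 𝒯 (fun i T => ZeroAt (c i) d T) = good c 𝒯 d := rfl
  rw [← h1]
  exact Z.sat_congr fun i T _ => event hs hf hd i T

/-- the root numbers -/
lemma root_part {m : ℕ} {c : Fin m → ℤ} (hr : ∀ i, RootPlus (c i)) {n : ℕ} {f : ℕ}
    (hf : Modulus c f) {d : Fin n → ℕ} (hd : d ∈ tuples c n f) (i : Fin m) (T : Finset (Fin n))
    {t : ℕ} (ht : IsPart d T t) : RootPlus (c i * t) := by
  have : Fact (Nat.Prime 17) := ⟨by norm_num⟩
  have htpos : 0 < t := Nat.pos_of_ne_zero ht.1.ne_zero
  have hne : ∀ j, ((d j : ℕ) : ZMod 17) ≠ 0 := by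
    intro j h
    have h1 : 17 ∣ d j := (ZMod.natCast_eq_zero_iff _ _).1 h
    have h2 : Nat.Coprime 17 34 := (Nat.Coprime.coprime_dvd_left (h1.trans (hd.1 j).1)
      (Nat.Coprime.coprime_dvd_right (Dvd.intro _ rfl) hf.2))
    exact absurd h2 (by decide)
  have hsq : ∀ j, IsSquare ((d j : ℕ) : ZMod 17) := fun j =>
    (hd.1 j).2.2 17 (by norm_num) (by norm_num) (Dvd.intro _ rfl)
  have hP : IsSquare ((∏ j ∈ T, d j : ℕ) : ZMod 17) ∧ ((∏ j ∈ T, d j : ℕ) : ZMod 17) ≠ 0 := by
    push_cast
    exact ⟨Finset.isSquare_prod _ fun j _ => hsq j, Finset.prod_ne_zero_iff.2 fun j _ => hne j⟩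
  have htd : t ∣ ∏ j ∈ T, d j := Z.C17.dvd_part ht.1 ht.2
  have ht0 : ((t : ℕ) : ZMod 17) ≠ 0 := by
    intro h
    have h1 : 17 ∣ t := (ZMod.natCast_eq_zero_iff _ _).1 h
    exact hP.2 ((ZMod.natCast_eq_zero_iff _ _).2 (h1.trans htd))
  have hts : IsSquare ((t : ℕ) : ZMod 17) := by
    obtain ⟨a, ha⟩ := ht.2
    obtain ⟨b, hb⟩ := hP.1
    have hb0 : b ≠ 0 := by
      rintro rfl
      exact hP.2 (by rw [hb, mul_zero])
    refine ⟨(a : ZMod 17) / b, ?_⟩
    have h1 : ((t : ℕ) : ZMod 17) * (b * b) = (a : ZMod 17) * a := by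
      rw [← hb]
      exact_mod_cast congrArg (Nat.cast : ℕ → ZMod 17) ha
    field_simp
    linear_combination h1
  have hj : jacobiSym (t : ℤ) 17 = 1 := by
    rw [← jacobiSym.legendreSym.to_jacobiSym, legendreSym.eq_one_iff]
    · exact_mod_cast hts
    · exact_mod_cast ht0
  have hmul : jacobiSym (c i * t) 17 = jacobiSym (c i) 17 := by
    rw [jacobiSym.mul_left, hj, mul_one]
  have htz : (0 : ℤ) < t := by exact_mod_cast htpos
  unfold RootPlus
  rw [hmul]
  rcases hr i with ⟨h1, h2⟩ | ⟨h1, h2⟩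
  · exact Or.inl ⟨mul_pos h1 htz, h2⟩
  · exact Or.inr ⟨mul_neg_of_neg_of_pos h1 htz, h2⟩

lemma near_close {m : ℕ} {c : Fin m → ℤ} {n : ℕ} {P Q : (Fin n → ℕ) → Prop} {q δ : ℝ} {f : ℕ}
    (h : Z.Near (Z.C17.NN c) false P q δ f) (hPQ : ∀ d ∈ tuples c n f, P d ↔ Q d) :
    Close c Q q δ f := by
  have hPQ' : ∀ x ∈ Z.fam (Z.C17.NN c) false n f, P x ↔ Q x := by
    rw [← tuples_eq]
    exact hPQ
  obtain ⟨h1, h2, h3⟩ := h.congr hPQ'
  rw [← tuples_eq] at h1 h2 h3
  exact ⟨h1, h2, h3⟩

lemma least_least {m : ℕ} {c : Fin m → ℤ} {n : ℕ} {P Q : (Fin n → ℕ) → Prop} {q δ : ℝ} {f : ℕ}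
    (h : Z.AtLeast (Z.C17.NN c) false P q δ f) (hPQ : ∀ d ∈ tuples c n f, P d → Q d) :
    AtLeast c Q q δ f := by
  have hPQ' : ∀ x ∈ Z.fam (Z.C17.NN c) false n f, P x → Q x := by
    rw [← tuples_eq]
    exact hPQ
  obtain ⟨h1, h2, h3⟩ := h.mono hPQ'
  rw [← tuples_eq] at h1 h2 h3
  exact ⟨h1, h2, h3⟩

end proof

/-- **Main theorem.** Let `c_1, …, c_m` be different squarefree integers such that the `E_{c_i}` have root
number `+1`, and let `𝒯` be a set of nonempty subsets of `{1, …, n}`, `M = m #𝒯`. (0) For all `f` and all the tuples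
all the `E_{c_i d_T}` have root number `+1`. Call the pair `(i, T)` good if `E_{c_i d_T}` has finitely many rational
points and no element of order two in `Ш`, and rank and analytic rank `0`, root number `+1` (so it satisfies
the parity conjecture). For almost all squarefree `f` prime to `34 c_1 ⋯ c_m` (natural density one), in the set
of the tuples `(d_1, …, d_n)` of divisors of `f` in the principal class, independent modulo squares:
(1) for every set `𝒥` of sets `J` of pairs `(i, T)`, `T ∈ 𝒯`, the proportion of those for which the set of the good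
pairs is in `𝒥` differs from `∑_{J ∈ 𝒥} κ ^ #J (1 - κ) ^ (M - #J)` by at most `δ`;
(2) the proportion of those for which all the pairs are good differs from `κ ^ M` by at most `δ`;
(3) the proportion of those for which some `c_i` is good for all `T ∈ 𝒯` differs from
`1 - (1 - κ ^ #𝒯) ^ m` by at most `δ`;
(4) the proportion of those for which EVERY `T ≠ ∅` is good for some `c_i` is at least
`1 - (2 ^ n - 1) (1 - κ) ^ m - δ`;
(5) if `M > 0`, then for all `ε > 0` the proportion of those for which the number of the good pairs differs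
from `κ M` by at most `ε M` is at least `1 - κ (1 - κ) / (ε ^ 2 M) - δ`. -/
theorem result (m n : ℕ) (c : Fin m → ℤ) (hinj : Function.Injective c)
    (hs : ∀ i, Squarefree (c i)) (hr : ∀ i, RootPlus (c i)) (𝒯 : Finset (Finset (Fin n)))
    (h𝒯 : ∀ T ∈ 𝒯, T.Nonempty) (δ : ℝ) (hδ : 0 < δ) :
    (∀ f, Modulus c f → ∀ d ∈ tuples c n f, ∀ i, ∀ T : Finset (Fin n), ∀ t, IsPart d T t →
      RootPlus (c i * t)) ∧
    (∀ 𝒥 : Finset (Finset (Fin m × Finset (Fin n))),
      (∀ J ∈ 𝒥, J ⊆ (Finset.univ : Finset (Fin m)) ×ˢ 𝒯) →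
      AlmostAll (Modulus c) (Close c (fun d => good c 𝒯 d ∈ 𝒥)
        (∑ J ∈ 𝒥, kappa ^ J.card * (1 - kappa) ^ (m * 𝒯.card - J.card)) δ)) ∧
    AlmostAll (Modulus c) (Close c (fun d => ∀ i, ∀ T ∈ 𝒯, ZeroAt (c i) d T)
      (kappa ^ (m * 𝒯.card)) δ) ∧
    AlmostAll (Modulus c) (Close c (fun d => ∃ i, ∀ T ∈ 𝒯, ZeroAt (c i) d T)
      (1 - (1 - kappa ^ 𝒯.card) ^ m) δ) ∧
    AlmostAll (Modulus c) (AtLeast c (fun d => ∀ T : Finset (Fin n), T.Nonempty → ∃ i, ZeroAt (c i) d T)
      (1 - (2 ^ n - 1) * (1 - kappa) ^ m) δ) ∧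
    (0 < m * 𝒯.card → ∀ ε : ℝ, 0 < ε → AlmostAll (Modulus c) (AtLeast c
      (fun d => |((good c 𝒯 d).card : ℝ) - kappa * (m * 𝒯.card : ℕ)| ≤ ε * (m * 𝒯.card : ℕ))
      (1 - kappa * (1 - kappa) / (ε ^ 2 * (m * 𝒯.card : ℕ))) δ)) ∧
    0.4194 < kappa ∧ kappa < 0.4195 := by
  have hn : false = true → 2 ≤ n := fun h => absurd h (by decide)
  have hE := fun i => Pool.Agent.N869.GK.Z.C17.even_of (hs i) (hr i)
  have hA := fun (i j : Fin m) (hij : i ≠ j) => Pool.Agent.N869.GK.Z.C17.apart_of (hs i) (hs j)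
    (hr i) (hr j) fun h => hij (hinj h)
  refine ⟨fun f hf d hd i T t ht => root_part hr hf hd i T ht, fun 𝒥 h𝒥 => ?_, ?_, ?_, ?_,
    fun hM ε hε => ?_, Pool.Agent.N869.GK.Z.kappa_bd.1, Pool.Agent.N869.GK.Z.kappa_bd.2⟩
  · have key := Pool.Agent.N869.GK.Z.law_pat' (Pool.Agent.N869.GK.Z.C17.NN_pos hs)
      (Pool.Agent.N869.GK.Z.C17.kane_c hs) hE hA false n hn 𝒯 h𝒯 𝒥 h𝒥 hδ
    rw [← modulus_eq] at key
    exact key.mono fun f hf h => near_close h fun d hd => by rw [good_eq hs hf 𝒯 hd]
  · have key := Pool.Agent.N869.GK.Z.C17.law17 hinj hs hr false n hn 𝒯 h𝒯 hδ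
    rw [← modulus_eq] at key
    exact key.mono fun f hf h => near_close h fun d hd =>
      ⟨fun h i T hT => (event hs hf hd i T).1 (h T hT i),
        fun h T hT i => (event hs hf hd i T).2 (h i T hT)⟩
  · have key := Pool.Agent.N869.GK.Z.law_one (Pool.Agent.N869.GK.Z.C17.NN_pos hs)
      (Pool.Agent.N869.GK.Z.C17.kane_c hs) hE hA false n hn 𝒯 h𝒯 hδ
    rw [← modulus_eq] at key
    exact key.mono fun f hf h => near_close h fun d hd =>
      exists_congr fun i => forall_congr' fun T => forall_congr' fun _ => event hs hf hd i T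
  · have key := Pool.Agent.N869.GK.Z.law_some (Pool.Agent.N869.GK.Z.C17.NN_pos hs)
      (Pool.Agent.N869.GK.Z.C17.kane_c hs) hE hA false n hn hδ
    rw [← modulus_eq] at key
    exact key.mono fun f hf h => least_least h fun d hd h T hT =>
      (h T hT).imp fun i hi => (event hs hf hd i T).1 hi
  · have key := Pool.Agent.N869.GK.Z.law_num (Pool.Agent.N869.GK.Z.C17.NN_pos hs)
      (Pool.Agent.N869.GK.Z.C17.kane_c hs) hE hA false n hn 𝒯 h𝒯 hM hε hδ
    rw [← modulus_eq] at key
    exact key.mono fun f hf h => least_least h fun d hd h => by rwa [good_eq hs hf 𝒯 hd] at h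

end Pool.Agent.Results.MP_577099_nt.JointLawX17
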