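import Pool.Agent.N739.EL.Form
import Pool.Agent.N739.EL.Main
import Pool.Agent.N739.EL.Par
import Pool.Agent.Results.MP_3283e1_nt.MeanSquareLaw

/-!
# The parity of the rank and the root number on one sparse sequence of intervals

Let `E : y² = x³ + a x + b` be an elliptic curve over `ℚ`, `a, b ∈ ℤ`, let `F` be the entire continuation of its
incomplete `L`-series, `f` its newform, `w` its root number, `N_p` the number of affine points modulo `p` and

`P(x) = ∏_{p ≤ x, p ∤ 2Δ} (N_p + 1)/p`

the original product of Birch and Swinnerton-Dyer. For real `ρ`, `C > 0`, `κ ≥ 0` let `M(X)` be the mean of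
`|log (P(x) / (C (log x)^ρ))|` over the interval `[X, X + X/(log X)^κ]`; for `κ = 0` the interval is `[X, 2X]`.
We prove, for every curve and without any hypothesis:

1. (parity) `w = (-1)^(rank E(ℚ))` and the Riemann hypothesis for `E` hold if and only if for some integer `k` of the
   parity of the rank there are `B` and arbitrarily large `X` such that the mean of `|log P(x) - k log log x|` over
   `[X, 2X]` is at most `B`. So if the Riemann hypothesis holds for `E` and the parity conjecture fails for `E` then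
   this mean tends to infinity for every `k` of the parity of the rank.
2. (order) `ρ = ord_{s=1} F` and the Riemann hypothesis holds for `E` if and only if there are `B` and arbitrarily large
   `X` such that the mean of `|log P(x) - ρ log log x|` over `[X, 2X]` is at most `B`; in this case `w = (-1)^ρ`. With
   `ρ = rank E(ℚ)`: the rank form of the conjecture of Birch and Swinnerton-Dyer and the Riemann hypothesis for `E`.
3. (every short interval sees every zero) If `F(s) = 0` with `Re s > 1`, then for `κ < (Re s - 1)/(2 - Re s)`, all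
   `ρ`, `C` and every `ε > 0` we have `M(X) ≥ X^(Re s - 1 - ε)` for ALL large `X`.
4. `F` has no zeros with `Re s > 1` (the Riemann hypothesis for `E`) if and only if there are `B` and arbitrarily large
   `X` for which the mean oscillation of `log P` over `[X, 2X]` is at most `B`.
5. (original asymptotic) The following are equivalent: the Riemann hypothesis for `E`, `ρ = m = ord_{s=1} F` and
   `F^(m)(1)/m! = √2 e^(mγ)/C`; the mean of `|log (P(x)/(C (log x)^ρ))|` over `[X, 2X]` tends to `0` as `X → ∞`;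
   it is smaller than every `ε > 0` for arbitrarily large `X`.

The known versions (pointwise: Goldfeld 1982; logarithmic means over `[e, X]` or `[X^(1-δ), X]`: the starting files)
need all `x`, or long ranges of `x` in the logarithmic scale.

Proof of 3. Let `D(u)` be the sum over `p ≤ e^u` of `log p · log ((N_p+1)/p)`. A product of commuting difference operators
(`Pool.Agent.N739.LW`), one for each zero `ρ' ≠ ρ₀` of `F(1 + s)` with `Re ρ' > θ`, `|Im ρ'| < T`, annihilates the
contribution of these zeros to a smoothed `D` and has norm at most `(C T)^n`, where `n` is their number, while the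
contribution of `ρ₀` stays at least `T^(-n) e^(Re ρ₀ U)`; the shift is smaller than the window. So the mean of `|D - c|`
over the window is at least `e^(Re ρ₀ U - C n log T)` up to the error of the line `Re s = θ`, for every constant `c`. The zero
density theorem of Selberg's strength for newforms (the number of zeros with `Re s > 1 + θ`, `|Im s| < T` is
`O(T^(1 - c θ) log T)` for every `c < 1`, the module `MP_553913_nt.OffLineZeros`) gives `n log T = o(U)` for windows
of relative length `U^(-κ)`. The other parts follow from 3, the functional equation of the newform (which gives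
`w = (-1)^ord`) and the mean square law for `P` (`MP_3283e1_nt.MeanSquareLaw`).
-/

set_option autoImplicit false

namespace Pool.Agent.Results.MP_577099_nt.OneDyadicSequence

open Pool.Agent.W263.BSD Filter Topology Classical MeasureTheory Set
open CongruenceSubgroup UpperHalfPlane
open scoped MatrixGroups

/-- `P(x)`: the product of `(N_p + 1) / p` over the primes `p ≤ x`, `p ∤ 2Δ`. -/
noncomputable def product (a b : ℤ) (x : ℝ) : ℝ :=
  ∏ p ∈ (Finset.range (⌊x⌋₊ + 1)).filter (GoodPrime a b), (((pointCount a b p : ℝ) + 1) / p)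

/-- The mean of `|log (P(x) / (C (log x)^ρ))|` over the interval `[X, X + X/(log X)^κ]`. -/
noncomputable def windowMean (a b : ℤ) (ρ C κ X : ℝ) : ℝ :=
  Real.log X ^ κ / X * ∫ x in X..(X + X / Real.log X ^ κ),
    |Real.log (product a b x / (C * Real.log x ^ ρ))|

/-- The mean of `|log P(x) - c|` over the interval `[X, 2X]`. -/
noncomputable def oscillation (a b : ℤ) (c X : ℝ) : ℝ :=
  1 / X * ∫ x in X..(2 * X), |Real.log (product a b x) - c|

/-- The `n`-th Fourier coefficient of `f`. -/
noncomputable def coef {N : ℕ} (f : CuspForm (Gamma0 N : Subgroup (GL (Fin 2) ℝ)) 2) (n : ℕ) : ℂ :=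
  (qExpansion 1 f).coeff n

/-- `f ∈ S_2(Γ₀(N))` is the newform of the elliptic curve `E : y² = x³ + a x + b` of conductor `N` and root
number `w`: the Fourier coefficients `c(n)` of `f` are real with `c(1) = 1`, they satisfy the Hecke relations
`c(mn) = c(m) c(n)` for coprime `m`, `n` and `c(p^(j+2)) = c(p) c(p^(j+1)) - p c(p^j)` (without the last
term if `p ∣ N`), `c(p) = a_p = p - N_p` (`N_p` affine points) for all primes `p ∤ 2Δ`, `|c(p)| ≤ 2 √p` for
all `p ∤ N` (Hasse), `c(p) = 0, 1, -1` for `p ∣ N` and `f(-1/(Nτ)) = -w N τ² f(τ)`. By the modularity theorem it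
exists for every `E`. -/
structure IsNewformOf (a b : ℤ) (N : ℕ) (f : CuspForm (Gamma0 N : Subgroup (GL (Fin 2) ℝ)) 2) (w : ℝ) :
    Prop where
  one : coef f 1 = 1
  real : ∀ n, (coef f n).im = 0
  mul : ∀ m n : ℕ, Nat.Coprime m n → coef f (m * n) = coef f m * coef f n
  pow : ∀ p j : ℕ, p.Prime → coef f (p ^ (j + 2)) = coef f p * coef f (p ^ (j + 1)) -
      (if p ∣ N then 0 else (p : ℂ) * coef f (p ^ j))
  points : ∀ p : ℕ, GoodPrime a b p → coef f p = (p : ℂ) - (pointCount a b p : ℂ)
  good : ∀ p : ℕ, p.Prime → ¬ p ∣ N → ‖coef f p‖ ≤ 2 * Real.sqrt p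
  bad : ∀ p : ℕ, p.Prime → p ∣ N → coef f p = 0 ∨ coef f p = 1 ∨ coef f p = -1
  sign : w = 1 ∨ w = -1
  fricke : ∀ τ τ' : ℍ, (τ' : ℂ) * ((N : ℂ) * (τ : ℂ)) = -1 →
    f τ' = -(w : ℂ) * (N : ℂ) * (τ : ℂ) ^ 2 * f τ

/-- The rank of the group of rational points of `y² = x³ + a x + b`. -/
noncomputable def rank (a b : ℤ) : ℕ :=
  Module.finrank ℤ
    (WeierstrassCurve.Affine.Point
      (WeierstrassCurve.toAffine
        ({ a₁ := 0, a₂ := 0, a₃ := 0, a₄ := (a : ℚ), a₆ := (b : ℚ) } : WeierstrassCurve ℚ)))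

/-- `F` has no zeros with `Re s > 1`. -/
def NoZeros (F : ℂ → ℂ) : Prop := ∀ s : ℂ, 1 < s.re → F s ≠ 0

/-- **Main theorem.** -/
theorem result (a b : ℤ) (hΔ : 4 * a ^ 3 + 27 * b ^ 2 ≠ 0) (F : ℂ → ℂ) (hF : IsLSeries a b F)
    (N : ℕ) [NeZero N] (f : CuspForm (Gamma0 N : Subgroup (GL (Fin 2) ℝ)) 2) (w : ℝ)
    (hf : IsNewformOf a b N f w) :
    ((NoZeros F ∧ w = (-1) ^ rank a b) ↔
      ∃ k : ℕ, k % 2 = rank a b % 2 ∧ ∃ B : ℝ, ∃ᶠ X : ℝ in atTop, windowMean a b k 1 0 X ≤ B) ∧
    (∀ ρ : ℝ, (NoZeros F ∧ ∃ m : ℕ, ρ = m ∧ analyticOrderAt F 1 = m ∧ w = (-1) ^ m) ↔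
      ∃ B : ℝ, ∃ᶠ X : ℝ in atTop, windowMean a b ρ 1 0 X ≤ B) ∧
    ((NoZeros F ∧ analyticOrderAt F 1 = rank a b) ↔
      ∃ B : ℝ, ∃ᶠ X : ℝ in atTop, windowMean a b (rank a b) 1 0 X ≤ B) ∧
    (∀ s : ℂ, F s = 0 → 1 < s.re → ∀ κ : ℝ, 0 ≤ κ → κ * (2 - s.re) < s.re - 1 →
      ∀ ρ C ε : ℝ, 0 < C → 0 < ε →
        ∀ᶠ X : ℝ in atTop, X ^ (s.re - 1 - ε) ≤ windowMean a b ρ C κ X) ∧
    (NoZeros F ↔ ∃ B : ℝ, ∃ᶠ X : ℝ in atTop, ∃ c : ℝ, oscillation a b c X ≤ B) ∧
    ∀ ρ C : ℝ, 0 < C → List.TFAE [
      NoZeros F ∧ ∃ m : ℕ, ρ = m ∧ analyticOrderAt F 1 = m ∧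
        iteratedDeriv m F 1 / (m.factorial : ℂ) =
          ((√2 * Real.exp (m * Real.eulerMascheroniConstant) / C : ℝ) : ℂ),
      Tendsto (fun X : ℝ => windowMean a b ρ C 0 X) atTop (𝓝 0),
      ∀ ε : ℝ, 0 < ε → ∃ᶠ X : ℝ in atTop, windowMean a b ρ C 0 X < ε] := by
  have hH : Pool.Agent.TH941.Hecke f :=
    { one := hf.one
      real := hf.real
      mul := hf.mul
      pow := hf.pow
      good := hf.good
      bad := fun p hp hpN => by
        have h2 : ‖coef f p‖ ≤ 1 := by
          rcases hf.bad p hp hpN with h | h | h <;> simp [h]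
        exact h2 }
  have hB : Pool.Agent.TH941.Belongs a b f := fun p hp => hf.points p hp
  have hf' : Pool.Agent.W169.HF.IsForm N f w :=
    { one := hf.one
      real := hf.real
      mul := hf.mul
      pow := hf.pow
      sign := hf.sign
      fricke := hf.fricke
      good := hf.good
      bad := fun p hp hpN => by
        have h1 : (1 : ℝ) ≤ Real.sqrt p := by
          rw [Real.one_le_sqrt]
          exact_mod_cast hp.one_le
        have h2 : ‖coef f p‖ ≤ 1 := by
          rcases hf.bad p hp hpN with h | h | h <;> simp [h]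
        exact h2.trans h1 }
  have hgr := Pool.Agent.N739.EL.growth_nf hΔ hF hH hB
  have hdens := Pool.Agent.N739.EL.dens_form hΔ hF hH hB hf'
  have hrs : Tendsto (rsSum a b) atTop (𝓝 0) := hH.rsSum_tendsto hΔ hB
  obtain ⟨C₀, κ₀, hg⟩ := Pool.Agent.TH270.MS.EQ.growth_F hΔ hF hH hB
  obtain ⟨c2, c3, c4⟩ := Pool.Agent.N739.EL.core hΔ hF hgr hdens hrs (by norm_num : (0 : ℝ) < 1 / 8) hg
  have hosc : ∀ c X : ℝ, oscillation a b c X =
      Pool.Agent.N739.EL.wm (fun x => Real.log (bsdProduct a b x) - c) 0 X := by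
    intro c X
    rw [Pool.Agent.N739.EL.wm_zero, ← two_mul]
    rfl
  have hwin : ∀ ρ C κ X : ℝ, windowMean a b ρ C κ X =
      Pool.Agent.N739.EL.wm (Pool.Agent.N739.EL.dev a b C ρ) κ X := fun _ _ _ _ => rfl
  have hpar : ∀ m : ℕ, analyticOrderAt F 1 = m → w = (-1) ^ m := fun m hm =>
    Pool.Agent.N739.EL.parity hΔ hF hH hB hf' hm
  have hord : ∀ ρ : ℝ, (NoZeros F ∧ ∃ m : ℕ, ρ = m ∧ analyticOrderAt F 1 = m ∧ w = (-1) ^ m) ↔
      ∃ B : ℝ, ∃ᶠ X : ℝ in atTop, windowMean a b ρ 1 0 X ≤ B := by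
    intro ρ
    simp only [hwin]
    rw [← c3 ρ]
    refine and_congr_right fun _ => ⟨fun ⟨m, h1, h2, _⟩ => ⟨m, h1, h2⟩, fun ⟨m, h1, h2⟩ =>
      ⟨m, h1, h2, hpar m h2⟩⟩
  refine ⟨?_, hord, ?_, ?_, ?_, ?_⟩
  · constructor
    · rintro ⟨h1, h2⟩
      obtain ⟨m, hm⟩ := order_finite hF
      have h3 := hpar m hm
      refine ⟨m, ?_, (hord (m : ℝ)).1 ⟨h1, m, rfl, hm, h3⟩⟩
      rw [h3] at h2
      rcases Nat.even_or_odd m with he | ho
      · rcases Nat.even_or_odd (rank a b) with he' | ho'
        · rw [Nat.even_iff.1 he, Nat.even_iff.1 he']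
        · rw [he.neg_one_pow, ho'.neg_one_pow] at h2
          norm_num at h2
      · rcases Nat.even_or_odd (rank a b) with he' | ho'
        · rw [ho.neg_one_pow, he'.neg_one_pow] at h2
          norm_num at h2
        · rw [Nat.odd_iff.1 ho, Nat.odd_iff.1 ho']
    · rintro ⟨k, hk, hB'⟩
      obtain ⟨h1, m, h2, h3, h4⟩ := (hord (k : ℝ)).2 hB'
      refine ⟨h1, ?_⟩
      have h5 : k = m := by exact_mod_cast h2
      subst h5
      rw [h4]
      rcases Nat.even_or_odd k with he | ho
      · have he' : Even (rank a b) := by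
          rw [Nat.even_iff] at he ⊢
          omega
        rw [he.neg_one_pow, he'.neg_one_pow]
      · have ho' : Odd (rank a b) := by
          rw [Nat.odd_iff] at ho ⊢
          omega
        rw [ho.neg_one_pow, ho'.neg_one_pow]
  · simp only [hwin]
    rw [← c3 (rank a b : ℝ)]
    refine and_congr_right fun _ => ⟨fun h => ⟨rank a b, rfl, h⟩, ?_⟩
    rintro ⟨m, h1, h2⟩
    have h3 : rank a b = m := by exact_mod_cast h1
    rw [h3]
    exact h2
  · intro s hs h1 κ hκ hκs ρ C ε hC hε
    exact Pool.Agent.N739.EL.win_lower hF hgr hdens hs h1 hκ hκs hC ρ hε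
  · simp only [hosc]
    exact c2
  · intro ρ C hC
    exact c4 ρ C hC

end Pool.Agent.Results.MP_577099_nt.OneDyadicSequence
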