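import Pool.Agent.N970.AVP.Pq

/-!
# The parity conjecture for the quadratic twists of three modular curves

The curves `C_0 = X_0(15) : y² = x (x + 9) (x - 16)`, `C_1 : y² = x (x + 1) (x - 16)` of conductor `17` and
`C_2 = X_0(21) : y² = x (x - 9) (x + 7)` are semistable and have no complex multiplication; `C_{j, d}` is the
twist of `C_j` by the squarefree integer `d`, of either sign and with no condition on `d`.

(1) Let `E = C_{j, d}` have finitely many rational points and no element of order two in the
Tate-Shafarevich group. Then `L(E, s)`, with all Euler factors, has an analytic continuation to a connected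
open set which contains `1` and the half plane `Re s > 3/2`, every such continuation is not zero at `s = 1`,
`Ш(E/ℚ)[2^∞] = 0`, and the parity conjecture holds for `E`: the sign in the functional equation of
`L(E, s)` is `(-1) ^ r = 1`, `r = 0` the rank; and the product `w(E)` of the local root numbers is `1` too.
(2) These `d` have, among all the squarefree integers, in the ordering by `|d|` and in the ordering by the
discriminant of `ℚ(√d)`, the natural density `δ_j`, `δ_0 = η / 2 = 0.1444…`, `δ_1 = c / 2 = 0.2097…`,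
`δ_2 = 137 η / 256 = 0.1545…`, where `η = ∏ (1 - 2^{-i})` and `c = ∏ (1 - 2^{-(2 i - 1)})`, and among the `d` with
`w(E) = 1` the natural density `2 δ_j` (`28.8`, `41.9`, `30.9` percent). So for these proportions of the twists
with root number `+1` the parity conjecture is proved.
(3) For the twists of several of the curves by the same `d` the density of the `d` which have the properties
in (1) for all the `C_j`, `j ∈ S`, is exactly `δ_S`: `433 η c / 1728 = 0.0303…` if `S = {0, 1}`,
`443 η / 3072 = 0.0416…` if `S = {0, 2}`, `2461 η c / 9216 = 0.0323…` if `S = {1, 2}`, and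
`8065 η c / 110592 = 0.0088…` for the three curves at once.
(4) For the negative fundamental discriminants `D` such that `3` is not inert and `5` is not split in
`ℚ(√D)` (`j = 0`), or `3` is not split and `7` is not inert (`j = 2`), the curve `C_{j, D}` has finitely many
rational points and no element of order two in the Tate-Shafarevich group if and only if the class group
of `ℚ(√D)` has no element of order four; so the parity conjecture holds for these `C_{j, D}`.

The theorem rests on the theorems for the rank part of the Birch and Swinnerton-Dyer conjecture (problem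
`MP_696deb_nt`, files `Conductor15`, `Conductor17`, `Conductor21`, joint work of helpers 969, 877, 809, 970,
971, 972, 973, 974, 975, 99, 218, 402, 575, 637, 816, 844, 855, 871, 875, 878, 886, 890, 916, 919, 958 and
others), on the library of helpers 433, 333 and 341 for minimal models; the densities are due to helpers
916 and 919, the joint law of the three curves to helpers 809, 877, 963, 972, 975.
-/

set_option autoImplicit false

open NumberField IsDedekindDomain Filter Topology

namespace Pool.Agent.Results.MP_577099_nt.TwistsThreeCurves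

/-- the coefficient `a` of the equation `y² = x³ + a x + b` of the twist by `m` of the curve `C_j` -/
def A (j : Fin 3) (m : ℤ) : ℤ := (![-12987, -91, -5211] : Fin 3 → ℤ) j * m ^ 2

/-- the coefficient `b` of the equation `y² = x³ + a x + b` of the twist by `m` of the curve `C_j` -/
def B (j : Fin 3) (m : ℤ) : ℤ := (![-263466, -330, -31050] : Fin 3 → ℤ) j * m ^ 3

/-- the twist `C_{j, m}` by `m` of the curve `C_j`, over the field `K` -/
def E (K : Type) [Field K] (j : Fin 3) (m : ℤ) : WeierstrassCurve K :=
  { a₁ := 0, a₂ := 0, a₃ := 0, a₄ := (A j m : K), a₆ := (B j m : K) }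

/-- `C_{j, m}(ℚ)` is finite and `Ш(C_{j, m}/ℚ)` has no element of order two -/
def RankZeroShaTwo (j : Fin 3) (m : ℤ) : Prop :=
  Finite (E ℚ j m).toAffine.Point ∧ ∀ x : Pool.Agent.TH841.NF.D.Sha (E ℚ j m), 2 • x = 0 → x = 0

/-- the nonzero primes of `K` -/
abbrev Pr (K : Type) [Field K] [NumberField K] : Type := {P : Ideal (𝓞 K) // P.IsPrime ∧ P ≠ ⊥}

/-- for every prime `P` the equation `M P` of `E` with coefficients in `𝓞 K` is minimal at `P` -/
def Minimal {K : Type} [Field K] [NumberField K] (E : WeierstrassCurve K)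
    (M : Pr K → WeierstrassCurve (𝓞 K)) : Prop :=
  ∀ P, (∃ C : WeierstrassCurve.VariableChange K, C • E = (M P).map (algebraMap (𝓞 K) K)) ∧
    ∀ W : WeierstrassCurve (𝓞 K),
      (∃ C : WeierstrassCurve.VariableChange K, C • E = W.map (algebraMap (𝓞 K) K)) →
        ∀ n : ℕ, (M P).Δ ∈ P.1 ^ n → W.Δ ∈ P.1 ^ n

open Classical in
/-- the Euler product with all Euler factors -/
noncomputable def euler {K : Type} [Field K] [NumberField K] (M : Pr K → WeierstrassCurve (𝓞 K))
    (s : ℂ) : ℂ :=
  ∏' P : Pr K, (1 - ((Nat.card (𝓞 K ⧸ P.1) : ℂ) -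
      (Nat.card {xy : (𝓞 K ⧸ P.1) × (𝓞 K ⧸ P.1) //
        ((M P).map (Ideal.Quotient.mk P.1)).toAffine.Equation xy.1 xy.2} : ℂ)) *
        (Nat.card (𝓞 K ⧸ P.1) : ℂ) ^ (-s) +
      (if (M P).Δ ∈ P.1 then 0 else (Nat.card (𝓞 K ⧸ P.1) : ℂ) ^ (1 - 2 * s)))⁻¹

/-- `f` is an analytic continuation of `L(E/K, s)`, with all Euler factors, to the connected open set
`U`, which contains `1` and the half plane `Re s > 3/2` -/
def Continues {K : Type} [Field K] [NumberField K] (E : WeierstrassCurve K) (U : Set ℂ)
    (f : ℂ → ℂ) : Prop :=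
  IsOpen U ∧ IsConnected U ∧ (1 : ℂ) ∈ U ∧ {s : ℂ | 3 / 2 < s.re} ⊆ U ∧ AnalyticOnNhd ℂ f U ∧
    ∃ M : Pr K → WeierstrassCurve (𝓞 K), Minimal E M ∧ ∀ s : ℂ, 3 / 2 < s.re → f s = euler M s

/-- the completed `L`-function for the conductor `N` -/
noncomputable def Lam (N : ℕ) (f : ℂ → ℂ) (s : ℂ) : ℂ :=
  (N : ℂ) ^ (s / 2) * (2 * (Real.pi : ℂ)) ^ (-s) * Complex.Gamma s * f s

/-- `w` is the sign in the functional equation of `L(E, s)` -/
def IsRootNumber (E : WeierstrassCurve ℚ) (w : ℤ) : Prop :=
  ∃ (N : ℕ) (f : ℂ → ℂ) (M : Pr ℚ → WeierstrassCurve (𝓞 ℚ)), 0 < N ∧ Differentiable ℂ f ∧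
    Minimal E M ∧ (∀ s : ℂ, 3 / 2 < s.re → f s = euler M s) ∧
    ∀ s : ℂ, 0 < s.re → s.re < 2 → Lam N f s = w * Lam N f (2 - s)

/-- the conductor of the curve `C_j` -/
def cond : Fin 3 → ℕ := ![15, 17, 21]

/-- `1` if the curve `C_j` has split, `- 1` if it has nonsplit multiplicative reduction at the prime `p` of its
conductor: nonsplit at `3` for `X_0(15)` and at `7` for `X_0(21)`, split in the other cases -/
def splitSign : Fin 3 → ℕ → ℤ := ![fun p => if p = 3 then -1 else 1, fun _ => 1,
  fun p => if p = 7 then -1 else 1]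

/-- the odd part of the squarefree integer `d` -/
def oddPart (d : ℤ) : ℤ := if d % 2 = 0 then d / 2 else d

/-- the local root number at the prime `p` of the twist `C_{j, d}`, `d` squarefree: `χ(-1)` for the local
character `χ` of `ℚ(√d)` at `p` if `p` divides `2 d` (`χ(-1) = 1` at `2` if and only if the odd part of `d` is
`1 mod 4`, and `χ(-1)` is the Legendre symbol of `-1` for odd `p`), `- 1` or `+ 1` if the multiplicative
reduction at `p` is split or nonsplit, `+ 1` if the reduction is good -/
def localRoot (j : Fin 3) (d : ℤ) (p : ℕ) : ℤ :=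
  if p = 2 then (if oddPart d % 4 = 1 then 1 else -1)
  else if (p : ℤ) ∣ d then jacobiSym (-1) p
  else if p ∣ cond j then -(splitSign j p * jacobiSym d p)
  else 1

/-- the root number of the twist `C_{j, d}`, `d` squarefree: the product of the local root numbers, the one
at the infinite place being `- 1` -/
def rootNumber (j : Fin 3) (d : ℤ) : ℤ :=
  -∏ p ∈ (2 * cond j * d.natAbs).primeFactors, localRoot j d p

open Classical in
/-- the parity conjecture for `E` -/
def Parity (E : WeierstrassCurve ℚ) : Prop :=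
  ∀ w : ℤ, IsRootNumber E w → (-1) ^ Module.finrank ℤ E.toAffine.Point = w

open Classical in
/-- `E(ℚ)` is finite, `L(E, s)` (with all Euler factors) continues to a connected open set containing
`1`, every such continuation is not zero at `1`, and `Ш(E/ℚ)[2^∞] = 0` -/
def RankQ (E : WeierstrassCurve ℚ) : Prop :=
  Finite E.toAffine.Point ∧ Module.finrank ℤ E.toAffine.Point = 0 ∧ (∃ U f, Continues E U f) ∧
    (∀ U f, Continues E U f → f 1 ≠ 0) ∧
      ∀ (k : ℕ) (y : Pool.Agent.TH841.NF.D.Sha E), (2 ^ k : ℕ) • y = 0 → y = 0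

/-- the proportions `η / 2`, `c / 2`, `137 η / 256` -/
noncomputable def delta : Fin 3 → ℝ :=
  ![(∏' i : ℕ, (1 - (1 / 2 : ℝ) ^ (i + 1))) / 2, (∏' i : ℕ, (1 - (1 / 2 : ℝ) ^ (2 * i + 1))) / 2,
    137 / 256 * ∏' i : ℕ, (1 - (1 / 2 : ℝ) ^ (i + 1))]

/-- the proportions `δ_S`, `S` a nonempty set of the indices `j` of the curves: `η / 2`, `c / 2`,
`137 η / 256` for one curve, `433 η c / 1728` for `S = {0, 1}`, `443 η / 3072` for `S = {0, 2}`,
`2461 η c / 9216` for `S = {1, 2}`, `8065 η c / 110592` for all three -/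
noncomputable def deltaS (S : Finset (Fin 3)) : ℝ :=
  if 1 ∈ S then
    if 0 ∈ S then
      (if 2 ∈ S then 8065 / 110592 else 433 / 1728) *
        ((∏' i : ℕ, (1 - (1 / 2 : ℝ) ^ (i + 1))) * ∏' i : ℕ, (1 - (1 / 2 : ℝ) ^ (2 * i + 1)))
    else if 2 ∈ S then
      2461 / 9216 *
        ((∏' i : ℕ, (1 - (1 / 2 : ℝ) ^ (i + 1))) * ∏' i : ℕ, (1 - (1 / 2 : ℝ) ^ (2 * i + 1)))
    else (∏' i : ℕ, (1 - (1 / 2 : ℝ) ^ (2 * i + 1))) / 2
  else
    (if 0 ∈ S then (if 2 ∈ S then 443 / 3072 else 1 / 2) else 137 / 256) *
      ∏' i : ℕ, (1 - (1 / 2 : ℝ) ^ (i + 1))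

/-- `D` is a fundamental discriminant (`1` included) -/
def Fund (D : ℤ) : Prop := (Squarefree D ∧ D % 4 = 1) ∨
  ∃ m : ℤ, D = 4 * m ∧ Squarefree m ∧ (m % 4 = 2 ∨ m % 4 = 3)

/-- the squarefree integer `d` with `ℚ(√d) = ℚ(√D)` -/
def core (D : ℤ) : ℤ := if D % 2 = 1 then D else D / 4

open Classical in
/-- the number of the squarefree integers `d`, `|d| ≤ X`, with the property `P` -/
noncomputable def count (P : ℤ → Prop) (X : ℕ) : ℕ :=
  ((Finset.Icc (-(X : ℤ)) X).filter fun d => Squarefree d ∧ P d).card

open Classical in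
/-- the number of the fundamental discriminants `D`, `|D| ≤ X`, for which `core D` has the
property `P` -/
noncomputable def countDisc (P : ℤ → Prop) (X : ℕ) : ℕ :=
  ((Finset.Icc (-(X : ℤ)) X).filter fun D => Fund D ∧ P (core D)).card

/-- the local conditions on the quadratic field of discriminant `D` for the curve `C_j`: `3` is not
inert and `5` is not split for `X_0(15)`, `3` is not split and `7` is not inert for `X_0(21)`; the curve
of conductor `17` is not allowed -/
def Allowed : Fin 3 → ℤ → Prop :=
  ![fun D => D % 3 ≠ 2 ∧ ¬ (D % 5 = 1 ∨ D % 5 = 4), fun _ => False,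
    fun D => D % 3 ≠ 1 ∧ ¬ (D % 7 = 3 ∨ D % 7 = 5 ∨ D % 7 = 6)]

/-- the ideal class group of `ℚ(√D)` has no element of order four -/
def NoOrderFour (D : ℤ) : Prop :=
  ∀ (K : Type) [Field K] [NumberField K], Module.finrank ℚ K = 2 →
    (∃ s : K, s ^ 2 = (D : K)) →
    ∀ c : ClassGroup (NumberField.RingOfIntegers K), c ^ 4 = 1 → c ^ 2 = 1

/-- **The parity conjecture for the quadratic twists of three modular curves.** -/
theorem result :
    -- the parity conjecture
    (∀ (j : Fin 3) (d : ℤ), Squarefree d → RankZeroShaTwo j d →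
      rootNumber j d = 1 ∧ Parity (E ℚ j d) ∧ RankQ (E ℚ j d)) ∧
    -- the densities, among all `d` and among the `d` with root number `+1`
    (∀ j : Fin 3,
      Tendsto (fun X : ℕ => (count (RankZeroShaTwo j) X : ℝ) / (count (fun _ => True) X : ℝ))
        atTop (nhds (delta j)) ∧
      Tendsto (fun X : ℕ => (countDisc (RankZeroShaTwo j) X : ℝ) /
        (countDisc (fun _ => True) X : ℝ)) atTop (nhds (delta j)) ∧
      Tendsto (fun X : ℕ => (count (RankZeroShaTwo j) X : ℝ) /
        (count (fun d => rootNumber j d = 1) X : ℝ)) atTop (nhds (2 * delta j)) ∧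
      Tendsto (fun X : ℕ => (countDisc (RankZeroShaTwo j) X : ℝ) /
        (countDisc (fun d => rootNumber j d = 1) X : ℝ)) atTop (nhds (2 * delta j))) ∧
    -- several of the curves at once
    (∀ S : Finset (Fin 3), S.Nonempty →
      Tendsto (fun X : ℕ => (count (fun d => ∀ j ∈ S, RankZeroShaTwo j d) X : ℝ) /
        (count (fun _ => True) X : ℝ)) atTop (nhds (deltaS S)) ∧
      Tendsto (fun X : ℕ => (countDisc (fun d => ∀ j ∈ S, RankZeroShaTwo j d) X : ℝ) /
        (countDisc (fun _ => True) X : ℝ)) atTop (nhds (deltaS S))) ∧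
    -- ideal classes of order four
    (∀ (j : Fin 3) (D : ℤ), Fund D → D < 0 → Allowed j D →
      (RankZeroShaTwo j D ↔ NoOrderFour D)) ∧
    0.1443 < delta 0 ∧ delta 0 < 0.1445 ∧ 0.2096 < delta 1 ∧ delta 1 < 0.2098 ∧
      0.1544 < delta 2 ∧ delta 2 < 0.1547 :=
  Pool.Agent.N970.AVP.mainP2

end Pool.Agent.Results.MP_577099_nt.TwistsThreeCurves
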